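import Mathlib

/-! # The arithmetic of the parameters of a split graph -/

set_option autoImplicit false

namespace Pool.Agent.Y384.SI.Arith

open Classical in
/-- the extremal value for split graphs on `n` vertices -/
noncomputable def val (n : ℕ) : ℕ :=
  if Even n then (n + 4) ^ 2 / 16
  else if IsSquare n ∨ IsSquare (n + 1) then (n + 3) ^ 2 / 16 + 1
  else (n + 3) ^ 2 / 16

lemma val_even {n : ℕ} (h : Even n) : val n = (n + 4) ^ 2 / 16 := by
  unfold val
  rw [if_pos h]

lemma val_odd_ge {n : ℕ} (h : ¬ Even n) : (n + 3) ^ 2 / 16 ≤ val n := by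
  unfold val
  rw [if_neg h]
  split_ifs
  · omega
  · exact le_rfl

lemma val_odd_sq {n : ℕ} (h : ¬ Even n) (h' : IsSquare n ∨ IsSquare (n + 1)) :
    val n = (n + 3) ^ 2 / 16 + 1 := by
  unfold val
  rw [if_neg h, if_pos h']

lemma val_odd_nsq {n : ℕ} (h : ¬ Even n) (h' : ¬ (IsSquare n ∨ IsSquare (n + 1))) :
    val n = (n + 3) ^ 2 / 16 := by
  unfold val
  rw [if_neg h, if_neg h']

lemma far {X w c : ℕ} (h : 4 * X ≤ w ^ 2) (hn : 8 ≤ 2 * w + c) :
    (X + (w + 3 + c) + 1) * 16 ≤ (w + 3 + c + w + 3) ^ 2 := by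
  have h1 : (X + (w + 3 + c) + 1) * 16 ≤ 4 * w ^ 2 + 16 * w + 64 + 16 * c := by omega
  refine h1.trans ?_
  rcases Nat.lt_or_ge w 4 with hw | hw
  · interval_cases w
    · obtain ⟨b, rfl⟩ := Nat.exists_eq_add_of_le (show 8 ≤ c by omega)
      nlinarith [Nat.zero_le (b ^ 2)]
    · obtain ⟨b, rfl⟩ := Nat.exists_eq_add_of_le (show 6 ≤ c by omega)
      nlinarith [Nat.zero_le (b ^ 2)]
    · obtain ⟨b, rfl⟩ := Nat.exists_eq_add_of_le (show 4 ≤ c by omega)
      nlinarith [Nat.zero_le (b ^ 2)]
    · obtain ⟨b, rfl⟩ := Nat.exists_eq_add_of_le (show 2 ≤ c by omega)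
      nlinarith [Nat.zero_le (b ^ 2)]
  · obtain ⟨v, rfl⟩ := Nat.exists_eq_add_of_le hw
    nlinarith [Nat.zero_le (c ^ 2), Nat.zero_le (c * v)]

lemma core {n l d s a : ℕ} (hn : 8 ≤ n) (hsum : (2 * l + d) + (2 * s + a) = n)
    (h : l * (l + d) ≤ s * (s + a)) : (l + 1) * (l + d + 1) ≤ val n := by
  set u := 2 * l + d with hu
  set w := 2 * s + a with hw
  have e1 : 4 * (l * (l + d)) + d ^ 2 = u ^ 2 := by rw [hu]; ring
  have e2 : 4 * (s * (s + a)) + a ^ 2 = w ^ 2 := by rw [hw]; ring
  have e3 : (l + 1) * (l + d + 1) = l * (l + d) + u + 1 := by rw [hu]; ring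
  set X := l * (l + d) with hX
  set Y := s * (s + a) with hY
  rw [e3]
  rcases Nat.even_or_odd n with hev | hod
  · rw [val_even hev, Nat.le_div_iff_mul_le (by norm_num)]
    have e4 : (n + 4) ^ 2 = (u + w + 4) ^ 2 := by rw [hsum]
    rw [e4]
    rcases le_total u w with huw | huw
    · have h5 : (2 * u + 4) ^ 2 ≤ (u + w + 4) ^ 2 := Nat.pow_le_pow_left (by omega) 2
      have h6 : (2 * u + 4) ^ 2 = 4 * u ^ 2 + 16 * u + 16 := by ring
      omega
    · obtain ⟨c, hc⟩ := Nat.exists_eq_add_of_le huw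
      -- `u = w + c`
      have h1 : 8 ≤ c + 4 * w := by omega
      have h2 : 8 * c ≤ (c + 4 * w) * c := Nat.mul_le_mul_right c h1
      have h5 : (u + w + 4) ^ 2 = 4 * w ^ 2 + 16 * w + 16 + (c + 4 * w) * c + 8 * c := by
        rw [hc]; ring
      omega
  · have hne : ¬ Even n := Nat.not_even_iff_odd.2 hod
    rcases lt_trichotomy (w + 1) u with h1 | h1 | h1
    · -- `u ≥ w + 3`
      have hpar : w + 3 ≤ u := by
        obtain ⟨k, hk⟩ := hod
        omega
      obtain ⟨c, hc⟩ := Nat.exists_eq_add_of_le hpar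
      by_cases h9 : n = 9
      · have hsq : IsSquare n ∨ IsSquare (n + 1) := Or.inl ⟨3, by omega⟩
        rw [val_odd_sq hne hsq, h9]
        have hw3 : w ≤ 3 := by omega
        have h2 : 4 * X ≤ w ^ 2 := by omega
        norm_num
        interval_cases w <;> omega
      · have h11 : 11 ≤ n := by
          obtain ⟨k, hk⟩ := hod
          omega
        refine le_trans ?_ (val_odd_ge hne)
        rw [Nat.le_div_iff_mul_le (by norm_num)]
        have e4 : (n + 3) ^ 2 = (u + w + 3) ^ 2 := by rw [hsum]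
        rw [e4]
        have h2 : 4 * X ≤ w ^ 2 := by omega
        rw [hc]
        exact far h2 (by omega)
    · -- `u = w + 1`
      have h2 : n + a ^ 2 ≤ d ^ 2 := by
        have e5 : u ^ 2 = w ^ 2 + n := by
          rw [← hsum, ← h1]; ring
        omega
      have h3 : 16 * (X + u + 1) + 4 * d ^ 2 = (n + 5) ^ 2 := by
        have h30 : n + 5 = 2 * u + 4 := by omega
        have h31 : (2 * u + 4) ^ 2 = 4 * u ^ 2 + 16 * u + 16 := by ring
        rw [h30, h31]
        omega
      have h33 : (n + 5) ^ 2 = (n + 3) ^ 2 + 4 * n + 16 := by ring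
      by_cases h4 : n + 4 ≤ d ^ 2
      · refine le_trans ?_ (val_odd_ge hne)
        rw [Nat.le_div_iff_mul_le (by norm_num)]
        omega
      · push Not at h4
        have hsq : IsSquare n ∨ IsSquare (n + 1) := by
          have hn' : n + 1 = 4 * l + 2 * d := by omega
          rcases Nat.even_or_odd d with ⟨r, hr⟩ | ⟨r, hr⟩
          · -- `d` even
            have h5 : d ^ 2 = 4 * (r * r) := by rw [hr]; ring
            have h6 : d ^ 2 = n + 1 := by omega
            exact Or.inr ⟨d, by rw [← h6]; ring⟩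
          · have h5 : d ^ 2 = 4 * (r * r + r) + 1 := by rw [hr]; ring
            have h6 : d ^ 2 = n := by omega
            exact Or.inl ⟨d, by rw [← h6]; ring⟩
        rw [val_odd_sq hne hsq]
        have h5 : 16 * (X + u + 1) ≤ (n + 3) ^ 2 + 16 := by omega
        have h6 := Nat.div_add_mod ((n + 3) ^ 2) 16
        have h7 := Nat.mod_lt ((n + 3) ^ 2) (show 0 < 16 by norm_num)
        omega
    · -- `u ≤ w`
      have huw : u + 1 ≤ w := by
        obtain ⟨k, hk⟩ := hod
        omega
      refine le_trans ?_ (val_odd_ge hne)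
      rw [Nat.le_div_iff_mul_le (by norm_num)]
      have h5 : (2 * u + 4) ^ 2 ≤ (n + 3) ^ 2 := Nat.pow_le_pow_left (by omega) 2
      have h6 : (2 * u + 4) ^ 2 = 4 * u ^ 2 + 16 * u + 16 := by ring
      omega

/-- The bound for the parameters of a split graph. -/
theorem upper {n l m s t : ℕ} (hn : 8 ≤ n) (hsum : l + m + s + t = n) (h : l * m ≤ s * t) :
    (l + 1) * (m + 1) ≤ val n := by
  have key : ∀ l m s t : ℕ, l ≤ m → s ≤ t → l + m + s + t = n → l * m ≤ s * t →
      (l + 1) * (m + 1) ≤ val n := by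
    intro l m s t hlm hst hsum h
    obtain ⟨d, rfl⟩ := Nat.exists_eq_add_of_le hlm
    obtain ⟨a, rfl⟩ := Nat.exists_eq_add_of_le hst
    exact core hn (by omega) h
  rcases le_total l m with h1 | h1 <;> rcases le_total s t with h2 | h2
  · exact key l m s t h1 h2 hsum h
  · exact key l m t s h1 h2 (by omega) (by rw [Nat.mul_comm t s]; exact h)
  · rw [Nat.mul_comm (l + 1)]
    exact key m l s t h1 h2 (by omega) (by rw [Nat.mul_comm m l]; exact h)
  · rw [Nat.mul_comm (l + 1)]
    exact key m l t s h1 h2 (by omega) (by rw [Nat.mul_comm m l, Nat.mul_comm t s]; exact h)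

/-- Parameters which attain the bound. -/
theorem lower {n : ℕ} (hn : 8 ≤ n) : ∃ l m s t : ℕ, 0 < l ∧ 0 < m ∧ 0 < t ∧
    l + m + s + t = n ∧ l * m ≤ s * t ∧ val n ≤ (l + 1) * (m + 1) := by
  -- the even configuration
  have even_conf : ∀ k : ℕ, 4 ≤ k → ∃ l m s t : ℕ, 0 < l ∧ 0 < m ∧ 0 < t ∧
      l + m + s + t = 2 * k ∧ l * m ≤ s * t ∧ (2 * k + 4) ^ 2 / 16 ≤ (l + 1) * (m + 1) := by
    intro k hk
    rcases Nat.even_or_odd k with ⟨r, hr⟩ | ⟨r, hr⟩
    · refine ⟨r, r, r, r, by omega, by omega, by omega, by omega, le_rfl, ?_⟩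
      apply Nat.div_le_of_le_mul
      rw [hr]
      nlinarith
    · refine ⟨r, r + 1, r, r + 1, by omega, by omega, by omega, by omega, le_rfl, ?_⟩
      have h1 : (2 * k + 4) ^ 2 = 16 * ((r + 1) * (r + 1 + 1)) + 4 := by
        rw [hr]; ring
      rw [h1]
      omega
  rcases Nat.even_or_odd n with hev | hod
  · obtain ⟨k, hk⟩ := hev
    obtain ⟨l, m, s, t, h1, h2, h3, h4, h5, h6⟩ := even_conf k (by omega)
    refine ⟨l, m, s, t, h1, h2, h3, by omega, h5, ?_⟩
    rw [val_even ⟨k, hk⟩]
    have : n = 2 * k := by omega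
    rw [this]
    exact h6
  · have hne : ¬ Even n := Nat.not_even_iff_odd.2 hod
    by_cases hsq : IsSquare n ∨ IsSquare (n + 1)
    · rw [val_odd_sq hne hsq]
      rcases hsq with ⟨δ, hδ⟩ | ⟨δ, hδ⟩
      · -- `n = δ²` with `δ` odd
        obtain ⟨a, ha⟩ : Odd δ := by
          rw [hδ] at hod
          exact (Nat.odd_mul.1 hod).1
        have ha0 : 0 < a := by
          rcases Nat.eq_zero_or_pos a with h0 | h0
          · rw [h0] at ha
            rw [ha] at hδ
            omega
          · exact h0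
        have hn2 : n = 4 * a ^ 2 + 4 * a + 1 := by rw [hδ, ha]; ring
        refine ⟨a ^ 2, (a + 1) ^ 2, a * (a + 1), a * (a + 1), by positivity, by positivity,
          by positivity, ?_, ?_, ?_⟩
        · rw [hn2]; ring
        · apply le_of_eq; ring
        · have h1 : (n + 3) ^ 2 = 16 * ((a ^ 2 + 1) * ((a + 1) ^ 2 + 1) - 1) := by
            have h2 : (a ^ 2 + 1) * ((a + 1) ^ 2 + 1) - 1 = (a ^ 2 + a + 1) ^ 2 := by
              have : (a ^ 2 + 1) * ((a + 1) ^ 2 + 1) = (a ^ 2 + a + 1) ^ 2 + 1 := by ring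
              rw [this, Nat.add_sub_cancel]
            rw [h2, hn2]
            ring
          rw [h1, Nat.mul_div_cancel_left _ (by norm_num)]
          have : 0 < (a ^ 2 + 1) * ((a + 1) ^ 2 + 1) := by positivity
          omega
      · -- `n + 1 = δ²` with `δ` even
        obtain ⟨b, hb⟩ : Even δ := by
          by_contra hodd
          rw [Nat.not_even_iff_odd] at hodd
          have h1 : Odd (n + 1) := by
            rw [hδ]
            exact hodd.mul hodd
          obtain ⟨i, hi⟩ := h1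
          obtain ⟨j, hj⟩ := hod
          omega
        have hn2 : n + 1 = 4 * b ^ 2 := by rw [hδ, hb]; ring
        obtain ⟨c, rfl⟩ : ∃ c, b = c + 2 := by
          refine ⟨b - 2, ?_⟩
          have : 2 ≤ b := by
            by_contra hlt
            push Not at hlt
            have : b ^ 2 ≤ 1 := by
              interval_cases b <;> norm_num
            omega
          omega
        refine ⟨(c + 2) * (c + 1), (c + 2) * (c + 3), (c + 1) * (c + 3), (c + 2) ^ 2,
          by positivity, by positivity, by positivity, ?_, ?_, ?_⟩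
        · have : n = 4 * (c + 2) ^ 2 - 1 := by omega
          rw [this]
          have h2 : (c + 2) * (c + 1) + (c + 2) * (c + 3) + (c + 1) * (c + 3) + (c + 2) ^ 2 + 1 =
            4 * (c + 2) ^ 2 := by ring
          omega
        · apply le_of_eq; ring
        · have hn3 : n + 3 = 4 * (c + 2) ^ 2 + 2 := by omega
          have h1 : (n + 3) ^ 2 = 16 * ((c + 2) ^ 4 + (c + 2) ^ 2) + 4 := by
            rw [hn3]; ring
          have h2 : ((c + 2) * (c + 1) + 1) * ((c + 2) * (c + 3) + 1) =
            (c + 2) ^ 4 + (c + 2) ^ 2 + 1 := by ring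
          rw [h1, h2]
          omega
    · rw [val_odd_nsq hne hsq]
      obtain ⟨k, hk⟩ := hod
      obtain ⟨l, m, s, t, h1, h2, h3, h4, h5, h6⟩ := even_conf k (by omega)
      refine ⟨l, m, s + 1, t, h1, h2, h3, by omega, ?_, ?_⟩
      · exact h5.trans (Nat.mul_le_mul_right _ (by omega))
      · have : n + 3 = 2 * k + 4 := by omega
        rw [this]
        exact h6

end Pool.Agent.Y384.SI.Arith
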