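import Pool.Agent.Results.MP_530eb6_co.Disproof
import Pool.Agent.Y384.SI.Arith

/-! # The product of the two independent domination numbers for split graphs -/

set_option autoImplicit false

namespace Pool.Agent.Y384.SI.Split

open Pool.Agent.Results.MP_530eb6_co.Disproof Pool.Agent.Y384.SI.Arith

/-- The vertex set is the union of a clique and an independent set. -/
def IsSplit {V : Type*} (G : SimpleGraph V) : Prop :=
  ∃ K : Set V, G.IsClique K ∧ G.IsIndepSet Kᶜ

variable {n : ℕ}

lemma clique_at {G : SimpleGraph (Fin n)} {K : Set (Fin n)} (hK : G.IsClique K)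
    (hI : G.IsIndepSet Kᶜ) {x : Fin n} (hx : x ∉ K) :
    minMaxCliqueNum G ≤ {v | v ∈ K ∧ G.Adj v x}.ncard + 1 := by
  set N : Set (Fin n) := {v | v ∈ K ∧ G.Adj v x} with hN
  have hxN : x ∉ N := fun h => hx h.1
  rw [← Set.ncard_insert_of_notMem hxN (Set.toFinite _)]
  refine Nat.sInf_le ⟨insert x N, ⟨?_, ?_⟩, rfl⟩
  · intro a ha b hb hab
    rcases ha with rfl | ha <;> rcases hb with rfl | hb
    · exact absurd rfl hab
    · exact hb.2.symm
    · exact ha.2
    · exact hK ha.1 hb.1 hab
  · intro T hT hsub y hy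
    by_cases hyx : y = x
    · exact Or.inl hyx
    · right
      have h1 : G.Adj y x := hT hy (hsub (Or.inl rfl)) hyx
      refine ⟨?_, h1⟩
      by_contra hyK
      exact hI hyK hx hyx h1

lemma indep_at {G : SimpleGraph (Fin n)} {K : Set (Fin n)} (hK : G.IsClique K)
    (hI : G.IsIndepSet Kᶜ) {v : Fin n} (hv : v ∈ K) :
    indepDomNum G ≤ {x | x ∉ K ∧ ¬ G.Adj v x}.ncard + 1 := by
  set N : Set (Fin n) := {x | x ∉ K ∧ ¬ G.Adj v x} with hN
  have hvN : v ∉ N := fun h => h.1 hv
  rw [← Set.ncard_insert_of_notMem hvN (Set.toFinite _)]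
  refine Nat.sInf_le ⟨insert v N, ⟨?_, ?_⟩, rfl⟩
  · intro a ha b hb hab hadj
    rcases ha with rfl | ha <;> rcases hb with rfl | hb
    · exact hab rfl
    · exact hb.2 hadj
    · exact ha.2 hadj.symm
    · exact hI ha.1 hb.1 hab hadj
  · intro T hT hsub y hy
    by_cases hyv : y = v
    · exact Or.inl hyv
    · right
      have h1 : ¬ G.Adj v y := hT (hsub (Or.inl rfl)) hy (Ne.symm hyv)
      exact ⟨fun hyK => h1 (hK hv hyK (Ne.symm hyv)), h1⟩

lemma indepDomNum_le (G : SimpleGraph (Fin n)) : indepDomNum G ≤ n := by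
  obtain ⟨S, hS⟩ := exists_maximal_isIndepSet G
  have h : indepDomNum G ≤ S.ncard := Nat.sInf_le ⟨S, hS, rfl⟩
  refine h.trans ?_
  have := Set.ncard_le_ncard (Set.subset_univ S) (Set.toFinite _)
  rw [Set.ncard_univ, Nat.card_eq_fintype_card, Fintype.card_fin] at this
  exact this

open Classical in
lemma double_count (G : SimpleGraph (Fin n)) (K : Finset (Fin n)) :
    (∑ x ∈ Kᶜ, (K.filter (fun v => G.Adj v x)).card) +
      ∑ v ∈ K, (Kᶜ.filter (fun x => ¬ G.Adj v x)).card = K.card * Kᶜ.card := by
  have h1 : (∑ x ∈ Kᶜ, (K.filter (fun v => G.Adj v x)).card) =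
      ∑ v ∈ K, (Kᶜ.filter (fun x => G.Adj v x)).card :=
    (Finset.sum_card_bipartiteAbove_eq_sum_card_bipartiteBelow (fun v x => G.Adj v x)).symm
  rw [h1, ← Finset.sum_add_distrib]
  have h2 : ∀ v ∈ K, (Kᶜ.filter (fun x => G.Adj v x)).card +
      (Kᶜ.filter (fun x => ¬ G.Adj v x)).card = Kᶜ.card := by
    intro v _
    exact Finset.card_filter_add_card_filter_not (s := Kᶜ) (fun x => G.Adj v x)
  rw [Finset.sum_congr rfl h2, Finset.sum_const, smul_eq_mul]

open Classical in
/-- The upper bound for split graphs. -/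
theorem split_upper (hn : 8 ≤ n) (G : SimpleGraph (Fin n)) (hG : IsSplit G) :
    indepDomNum G * indepDomNum Gᶜ ≤ val n := by
  obtain ⟨K', hK, hI⟩ := hG
  rw [← minMaxCliqueNum_eq]
  set K : Finset (Fin n) := K'.toFinset with hKdef
  have hmem : ∀ v, v ∈ K ↔ v ∈ K' := fun v => Set.mem_toFinset
  set i := indepDomNum G with hi
  set μ := minMaxCliqueNum G with hμ
  have hin : i ≤ n := indepDomNum_le G
  have hμn : μ ≤ n := by
    rw [hμ, minMaxCliqueNum_eq]
    exact indepDomNum_le Gᶜ
  -- the trivial bound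
  have htriv : n ≤ val n := by
    have := upper (n := n) (l := 0) (m := n - 1) (s := 1) (t := 0) hn (by omega) (by simp)
    have e : (0 + 1) * (n - 1 + 1) = n := by omega
    omega
  rcases Nat.eq_zero_or_pos i with h0 | hi0
  · rw [h0, Nat.zero_mul]
    exact Nat.zero_le _
  rcases Nat.eq_zero_or_pos μ with h0 | hμ0
  · rw [h0, Nat.mul_zero]
    exact Nat.zero_le _
  have hA : ∀ x ∈ Kᶜ, μ ≤ (K.filter (fun v => G.Adj v x)).card + 1 := by
    intro x hx
    rw [Finset.mem_compl, hmem] at hx
    have h := clique_at hK hI hx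
    have e : ({v | v ∈ K' ∧ G.Adj v x} : Set (Fin n)) =
        ((K.filter (fun v => G.Adj v x) : Finset (Fin n)) : Set (Fin n)) := by
      ext v
      simp only [Set.mem_ofPred_eq, Finset.coe_filter, hmem]
    rw [e, Set.ncard_coe_finset] at h
    exact h
  have hB : ∀ v ∈ K, i ≤ (Kᶜ.filter (fun x => ¬ G.Adj v x)).card + 1 := by
    intro v hv
    rw [hmem] at hv
    have h := indep_at hK hI hv
    have e : ({x | x ∉ K' ∧ ¬ G.Adj v x} : Set (Fin n)) =
        ((Kᶜ.filter (fun x => ¬ G.Adj v x) : Finset (Fin n)) : Set (Fin n)) := by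
      ext x
      simp only [Set.mem_ofPred_eq, Finset.coe_filter, Finset.mem_compl, hmem]
    rw [e, Set.ncard_coe_finset] at h
    exact h
  have hcard : K.card + Kᶜ.card = n := by
    rw [Finset.card_add_card_compl, Fintype.card_fin]
  rcases Nat.eq_zero_or_pos K.card with hp0 | hp0
  · -- `K` empty: there is a vertex outside
    have hr : 0 < Kᶜ.card := by omega
    obtain ⟨x, hx⟩ := Finset.card_pos.1 hr
    have h1 := hA x hx
    have h2 : (K.filter (fun v => G.Adj v x)).card ≤ K.card :=
      Finset.card_le_card (Finset.filter_subset _ _)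
    have h3 : μ = 1 := by omega
    rw [h3, Nat.mul_one]
    omega
  rcases Nat.eq_zero_or_pos Kᶜ.card with hr0 | hr0
  · obtain ⟨v, hv⟩ := Finset.card_pos.1 hp0
    have h1 := hB v hv
    have h2 : (Kᶜ.filter (fun x => ¬ G.Adj v x)).card ≤ Kᶜ.card :=
      Finset.card_le_card (Finset.filter_subset _ _)
    have h3 : i = 1 := by omega
    rw [h3, Nat.one_mul]
    omega
  obtain ⟨l, hl⟩ : ∃ l, i = l + 1 := ⟨i - 1, by omega⟩
  obtain ⟨m, hm⟩ : ∃ m, μ = m + 1 := ⟨μ - 1, by omega⟩
  have hdc := double_count G K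
  have h1 : Kᶜ.card * m ≤ ∑ x ∈ Kᶜ, (K.filter (fun v => G.Adj v x)).card := by
    rw [← smul_eq_mul]
    apply Finset.card_nsmul_le_sum
    intro x hx
    have := hA x hx
    omega
  have h2 : K.card * l ≤ ∑ v ∈ K, (Kᶜ.filter (fun x => ¬ G.Adj v x)).card := by
    rw [← smul_eq_mul]
    apply Finset.card_nsmul_le_sum
    intro v hv
    have := hB v hv
    omega
  have h3 : Kᶜ.card * m + K.card * l ≤ K.card * Kᶜ.card := by omega
  have h4 : m ≤ K.card := by
    by_contra hlt
    push Not at hlt
    have : Kᶜ.card * K.card < Kᶜ.card * m := Nat.mul_lt_mul_of_pos_left hlt hr0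
    have e : K.card * Kᶜ.card = Kᶜ.card * K.card := Nat.mul_comm _ _
    omega
  have h5 : l ≤ Kᶜ.card := by
    by_contra hlt
    push Not at hlt
    have : K.card * Kᶜ.card < K.card * l := Nat.mul_lt_mul_of_pos_left hlt hp0
    omega
  obtain ⟨s, hs⟩ := Nat.exists_eq_add_of_le h4
  obtain ⟨t, ht⟩ := Nat.exists_eq_add_of_le h5
  rw [hs, ht] at h3
  have h6 : l * m ≤ s * t := by nlinarith
  rw [hl, hm]
  exact upper hn (by omega) h6

/-- The construction, with the additional information that the graph is split. -/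
theorem exists_split (ℓ m t p : ℕ) (hm : 0 < m) (ht : 0 < t) (hℓ : 0 < ℓ)
    (hpt : (ℓ + t) * m ≤ p * t) :
    ∃ G : SimpleGraph (Fin (p + (ℓ + t))), IsSplit G ∧ ℓ + 1 ≤ indepDomNum G ∧
      m + 1 ≤ minMaxCliqueNum G := by
  have hmp : m + 1 ≤ p := by
    by_contra hcon
    have h1 : p ≤ m := by omega
    have h2 : p * t ≤ m * t := Nat.mul_le_mul_right t h1
    have h3 : 0 < ℓ * m := Nat.mul_pos hℓ hm
    nlinarith
  have hp0 : 0 < p := by omega
  refine ⟨splitGraph (p + (ℓ + t)) p (fun v x => ∃ j, j / m = x - p ∧ j % p = v), ?_, ?_, ?_⟩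
  · refine ⟨{v | v.val < p}, ?_, ?_⟩
    · intro a ha b hb hab
      exact ⟨hab, Or.inl ⟨ha, hb⟩⟩
    · intro a ha b hb hab
      rintro ⟨_, h1⟩
      have ha' : ¬ a.val < p := ha
      have hb' : ¬ b.val < p := hb
      rcases h1 with h1 | h1 | h1
      · exact ha' h1.1
      · exact ha' h1.1
      · exact hb' h1.1
  · apply indep_bound
    · omega
    · intro v hv
      -- the complement within the independent part has at most `t` vertices
      set A : Set (Fin (p + (ℓ + t))) :=
        {x | p ≤ x.val ∧ ∃ j, j / m = x.val - p ∧ j % p = v.val} with hA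
      set B : Set (Fin (p + (ℓ + t))) :=
        {x | p ≤ x.val ∧ ¬ ∃ j, j / m = x.val - p ∧ j % p = v.val} with hB
      have hAB : A ∪ B = {x : Fin (p + (ℓ + t)) | p ≤ x.val} := by
        ext x
        constructor
        · rintro (h | h) <;> exact h.1
        · intro h
          by_cases hj : ∃ j, j / m = x.val - p ∧ j % p = v.val
          · exact Or.inl ⟨h, hj⟩
          · exact Or.inr ⟨h, hj⟩
      have hcard : {x : Fin (p + (ℓ + t)) | p ≤ x.val}.ncard = ℓ + t := by
        have : {v : Fin (p + (ℓ + t)) | p ≤ v.val} =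
            ((Finset.univ.filter (fun v : Fin (p + (ℓ + t)) => v.val < p))ᶜ :
              Set (Fin (p + (ℓ + t)))) := by
          ext; simp
        rw [this, Set.ncard_compl, Set.ncard_coe_finset, Fin.card_filter_val_lt]
        simp
      have hAt : A.ncard ≤ t := by
        have hch : ∀ x : Fin (p + (ℓ + t)), ∃ i : ℕ, x ∈ A →
            i < t ∧ (v.val + p * i) / m = x.val - p := by
          intro x
          by_cases hx : x ∈ A
          · obtain ⟨hpx, j, hj1, hj2⟩ := hx
            refine ⟨j / p, fun _ => ⟨?_, ?_⟩⟩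
            · rw [Nat.div_lt_iff_lt_mul hp0]
              have h1 : j < (x.val - p + 1) * m := by
                rw [← hj1, add_mul, one_mul]
                have := Nat.div_add_mod j m
                have h2 := Nat.mod_lt j hm
                nlinarith
              have h3 : (x.val - p + 1) * m ≤ (ℓ + t) * m := by
                apply Nat.mul_le_mul_right
                have := x.isLt
                omega
              calc j < (x.val - p + 1) * m := h1
                _ ≤ (ℓ + t) * m := h3
                _ ≤ p * t := hpt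
                _ = t * p := Nat.mul_comm _ _
            · rw [← hj2, Nat.mod_add_div]
              exact hj1
          · exact ⟨0, fun h => absurd h hx⟩
        choose f hf using hch
        have : A.ncard ≤ (Finset.range t : Set ℕ).ncard := by
          apply Set.ncard_le_ncard_of_injOn f
          · intro x hx
            simpa using (hf x hx).1
          · intro x hx y hy hxy
            have h1 := (hf x hx).2
            have h2 := (hf y hy).2
            rw [hxy, h2] at h1
            have := hx.1
            have := hy.1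
            ext
            omega
        rwa [Set.ncard_coe_finset, Finset.card_range] at this
      have := Set.ncard_union_le A B
      rw [hAB, hcard] at this
      omega
  · apply clique_bound
    · omega
    · omega
    · intro x hx
      set A : Set (Fin (p + (ℓ + t))) :=
        {v | v.val < p ∧ ∃ j, j / m = x.val - p ∧ j % p = v.val} with hA
      have : (Finset.range m : Set ℕ).ncard ≤ A.ncard := by
        apply Set.ncard_le_ncard_of_injOn
          (fun i => (⟨((x.val - p) * m + i) % p,
            lt_of_lt_of_le (Nat.mod_lt _ hp0) (by omega)⟩ : Fin (p + (ℓ + t))))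
        · intro i hi
          have hi' : i < m := by simpa using hi
          refine ⟨Nat.mod_lt _ hp0, (x.val - p) * m + i, ?_, rfl⟩
          rw [Nat.mul_comm, Nat.mul_add_div hm, Nat.div_eq_of_lt hi', add_zero]
        · intro i hi j hj hij
          have hi' : i < m := by simpa using hi
          have hj' : j < m := by simpa using hj
          have h1 : ((x.val - p) * m + i) % p = ((x.val - p) * m + j) % p := by
            simpa using hij
          have h2 : i ≡ j [MOD p] := Nat.ModEq.add_left_cancel' _ h1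
          have h3 : i % p = j % p := h2
          rwa [Nat.mod_eq_of_lt (by omega), Nat.mod_eq_of_lt (by omega)] at h3
      rwa [Set.ncard_coe_finset, Finset.card_range] at this

theorem split_lower (hn : 8 ≤ n) : ∃ G : SimpleGraph (Fin n), IsSplit G ∧
    val n ≤ indepDomNum G * indepDomNum Gᶜ := by
  obtain ⟨l, m, s, t, h1, h2, h3, h4, h5, h6⟩ := lower hn
  have key : ∀ N : ℕ, (m + s) + (l + t) = N → ∃ G : SimpleGraph (Fin N), IsSplit G ∧
      (l + 1) * (m + 1) ≤ indepDomNum G * indepDomNum Gᶜ := by
    rintro N rfl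
    obtain ⟨G, hG, hG1, hG2⟩ := exists_split l m t (m + s) h2 h3 h1 (by nlinarith)
    rw [minMaxCliqueNum_eq] at hG2
    exact ⟨G, hG, Nat.mul_le_mul hG1 hG2⟩
  obtain ⟨G, hG, hG1⟩ := key n (by omega)
  exact ⟨G, hG, h6.trans hG1⟩

/-- `f n` is at least `n`, by the complete graph. -/
theorem le_f_complete (hn : 0 < n) : n ≤ f n := by
  have h1 : n ≤ indepDomNum (⊥ : SimpleGraph (Fin n)) := by
    apply le_indepDomNum
    intro S hS
    have : S = Set.univ := by
      apply hS.eq_of_subset _ (Set.subset_univ S)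
      intro a _ b _ _ hadj
      exact hadj
    rw [this, Set.ncard_univ, Nat.card_eq_fintype_card, Fintype.card_fin]
  have h2 : 1 ≤ indepDomNum (⊤ : SimpleGraph (Fin n)) := by
    apply le_indepDomNum
    intro S hS
    rw [Nat.one_le_iff_ne_zero, ← Nat.pos_iff_ne_zero, Set.ncard_pos (Set.toFinite _)]
    by_contra hne
    rw [Set.not_nonempty_iff_eq_empty] at hne
    have h3 : (⊤ : SimpleGraph (Fin n)).IsIndepSet ({⟨0, hn⟩} : Set (Fin n)) := by
      intro a ha b hb hab
      exact absurd ((Set.mem_singleton_iff.1 ha).trans (Set.mem_singleton_iff.1 hb).symm) hab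
    have h4 := hS.2 h3 (by rw [hne]; exact Set.empty_subset _)
    rw [hne] at h4
    exact h4 (Set.mem_singleton _)
  have h5 := (f_isGreatest n).2 ⟨⊤, rfl⟩
  rw [compl_top] at h5
  calc n = 1 * n := (one_mul n).symm
    _ ≤ _ := Nat.mul_le_mul h2 h1
    _ ≤ f n := h5

end Pool.Agent.Y384.SI.Split
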